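import Mathlib
import Pool.Agent.Helper44.QB.Step

/-!
PROJECT QB, leaf (E): from the exactness of the whole algebra in positive degrees (no grading
mentioned) to the exactness of the families `Ft k δ univ n` and `Fw 𝒜 δ w univ n p`.
-/

set_option autoImplicit false

open scoped TensorProduct
open Pool.Agent.Helper44.QA Pool.Agent.Helper44.QB

namespace Pool.Agent.Helper64.QB

universe u

variable {k R : Type u} [Field k] [CommRing R] [Algebra k R]
  {O : Type} [Fintype O] [LinearOrder O] {b : ℕ}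

theorem mon_Ft (k : Type u) [Field k] [Algebra k R] (δ : O ⊕ Fin b → ℤ) (m : Mo O b) (r : R) :
    (r • mon m : AA R O b) ∈ Ft k δ Set.univ (lin δ m) :=
  smul_mon_mem (mem_Cd.2 ⟨fun _ => ⟨⟨fun _ _ => Set.mem_univ _, fun _ _ => Set.mem_univ _⟩, rfl⟩,
    Submodule.mem_top⟩)

/-- The decomposition into homogeneous parts. -/
theorem exists_deg (k : Type u) [Field k] [Algebra k R] (δ : O ⊕ Fin b → ℤ) (y : AA R O b) :
    ∃ (I : Finset ℤ) (f : ℤ → AA R O b), (∀ n, f n ∈ Ft k δ Set.univ n) ∧ y = ∑ n ∈ I, f n ∧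
      ∀ n, n ∉ I → f n = 0 := by
  classical
  obtain ⟨s, hs, -⟩ := exists_sum y
  refine ⟨s.image (lin δ), fun n => ∑ m ∈ s with lin δ m = n, co m y • mon m, ?_, ?_, ?_⟩
  · intro n
    refine Submodule.sum_mem _ fun m hm => ?_
    have h1 := (Finset.mem_filter.1 hm).2
    rw [← h1]
    exact mon_Ft k δ m _
  · rw [Finset.sum_fiberwise_of_maps_to (fun m hm => Finset.mem_image_of_mem _ hm)]
    exact hs
  · intro n hn
    refine Finset.sum_eq_zero fun m hm => ?_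
    obtain ⟨h1, h2⟩ := Finset.mem_filter.1 hm
    exact absurd (h2 ▸ Finset.mem_image_of_mem _ h1) hn

variable {δ w : O ⊕ Fin b → ℤ} {T : DD R O b} {𝒜 : ℕ → Submodule k R}

theorem cl_univ (hT : Gr 𝒜 δ w T) : Cl k δ T Set.univ := fun g _ =>
  Pc_mono subset_rfl (fun _ _ _ => le_top) (hT.val g)

theorem co_Ft {n : ℤ} {S : Set (O ⊕ Fin b)} {x : AA R O b} (hx : x ∈ Ft k δ S n) {m : Mo O b}
    (hm : lin δ m ≠ n) : co m x = 0 := by
  by_contra h0
  exact hm ((mem_Cd.1 (hx m)).1 h0).2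

/-- Exactness in the degree `n ≥ 1`. -/
theorem ex_deg (hT : Gr 𝒜 δ w T)
    (h : ∀ x, T.d x = 0 → ∃ (ρ : R) (y : AA R O b), x = ρ • 1 + T.d y) {n : ℤ} (hn : 1 ≤ n)
    {z : AA R O b} (hz : z ∈ Ft k δ Set.univ n) (hd : T.d z = 0) :
    ∃ y ∈ Ft k δ Set.univ (n + 1), T.d y = z := by
  obtain ⟨ρ, y, hy⟩ := h z hd
  obtain ⟨I, f, hf, hyf, hI⟩ := exists_deg k δ y
  have hdf : ∀ n', T.d (f n') ∈ Ft k δ Set.univ (n' - 1) := fun n' => d_Ft (cl_univ hT) (hf n')
  refine ⟨f (n + 1), hf _, ?_⟩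
  apply co_ext
  intro m
  by_cases hm : lin δ m = n
  · have h1 : co m (1 : AA R O b) = 0 := by
      rw [← mon_zero, co_mon, if_neg]
      rintro rfl
      have : lin δ ((∅, 0) : Mo O b) = 0 := by unfold lin; simp
      omega
    have h2 : co m (T.d y) = co m (T.d (f (n + 1))) := by
      rw [hyf, map_sum, map_sum]
      refine Finset.sum_eq_single (n + 1) (fun n' _ hn' => ?_) fun hn' => ?_
      · exact co_Ft (hdf n') (by omega)
      · rw [hI _ hn', map_zero, map_zero]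
    rw [← h2, hy, map_add, map_smul, h1, smul_zero, zero_add]
  · have h1 := hdf (n + 1)
    rw [add_sub_cancel_right] at h1
    rw [co_Ft h1 hm, co_Ft hz hm]

theorem Ft_le_iSup [GradedAlgebra 𝒜] (n : ℤ) :
    Ft k δ (Set.univ : Set (O ⊕ Fin b)) n ≤ ⨆ p : ℤ, Fw 𝒜 δ w Set.univ n p := by
  intro y hy
  obtain ⟨s, hs, -⟩ := exists_sum y
  rw [hs]
  refine Submodule.sum_mem _ fun m _ => ?_
  by_cases h0 : co m y = 0
  · rw [h0, zero_smul]
    exact Submodule.zero_mem _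
  · have hm : lin δ m = n := ((mem_Cd.1 (hy m)).1 h0).2
    generalize co m y = r
    induction r using DirectSum.Decomposition.inductionOn 𝒜 with
    | zero => rw [zero_smul]; exact Submodule.zero_mem _
    | homogeneous r =>
      rename_i i
      refine Submodule.mem_iSup_of_mem ((i : ℤ) + lin w m) ?_
      refine smul_mon_mem (mem_Cd.2 ⟨fun _ => ⟨⟨fun _ _ => Set.mem_univ _,
        fun _ _ => Set.mem_univ _⟩, hm⟩, ?_⟩)
      rw [add_sub_cancel_right, AZ_nat]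
      exact r.2
    | add a b ha hb => rw [add_smul]; exact Submodule.add_mem _ ha hb

/-- Exactness in the degree `n ≥ 1` and the weight `p`. -/
theorem ex_wt [GradedAlgebra 𝒜] (hT : Gr 𝒜 δ w T)
    (h : ∀ x, T.d x = 0 → ∃ (ρ : R) (y : AA R O b), x = ρ • 1 + T.d y) {n : ℤ} (hn : 1 ≤ n)
    {p : ℤ} {z : AA R O b} (hz : z ∈ Fw 𝒜 δ w Set.univ n p) (hd : T.d z = 0) :
    ∃ y ∈ Fw 𝒜 δ w Set.univ (n + 1) p, T.d y = z := by
  obtain ⟨y, hy, hyz⟩ := ex_deg hT h hn (Pc_mono subset_rfl (fun _ _ _ => le_top) hz) hd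
  obtain ⟨f, hf, hfy⟩ := (Submodule.mem_iSup_iff_exists_finsupp _ _).1 (Ft_le_iSup (𝒜 := 𝒜) (w := w) (n + 1) hy)
  have hdf : ∀ q, T.d (f q) ∈ Fw 𝒜 δ w Set.univ n q := fun q => by
    have := d_Fw hT (cl_univ hT) (hf q)
    rwa [add_sub_cancel_right] at this
  refine ⟨f p, hf p, ?_⟩
  apply co_ext
  intro m
  have hz' := (mem_Cd.1 (hz m)).2
  have hp' := (mem_Cd.1 (hdf p m)).2
  by_cases hq : p - lin w m < 0
  · rw [AZ_neg 𝒜 hq, Submodule.mem_bot] at hz' hp'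
    rw [hz', hp']
  · obtain ⟨i, hi⟩ := Int.eq_ofNat_of_zero_le (not_lt.1 hq)
    rw [hi, AZ_nat] at hz' hp'
    have h1 : ∀ r ∈ 𝒜 i, GradedRing.proj 𝒜 i r = r := fun r hr => by
      rw [GradedRing.proj_apply, DirectSum.decompose_of_mem_same 𝒜 hr]
    rw [← h1 _ hp', ← h1 _ hz', ← hyz, ← hfy, Finsupp.sum, map_sum, map_sum, map_sum]
    symm
    refine Finset.sum_eq_single p (fun q _ hqp => ?_) fun hp => ?_
    · have h2 := (mem_Cd.1 (hdf q m)).2
      by_cases hq' : q - lin w m < 0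
      · rw [AZ_neg 𝒜 hq', Submodule.mem_bot] at h2
        rw [h2, map_zero]
      · obtain ⟨j, hj⟩ := Int.eq_ofNat_of_zero_le (not_lt.1 hq')
        rw [hj, AZ_nat] at h2
        rw [GradedRing.proj_apply, DirectSum.decompose_of_mem_ne 𝒜 h2]
        rintro rfl
        apply hqp
        omega
    · rw [Finsupp.notMem_support_iff.1 hp, map_zero, map_zero, map_zero]

/-- `Ex` for the families `Ft`. -/
theorem Ex_Ft (hT : Gr 𝒜 δ w T)
    (h : ∀ x, T.d x = 0 → ∃ (ρ : R) (y : AA R O b), x = ρ • 1 + T.d y) :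
    ∀ n : ℤ, 1 ≤ n → Pool.Agent.Helper67.QB.Ex T.d.toAddMonoidHom
      (fun n => (Ft k δ Set.univ n).toAddSubgroup) n :=
  fun _ hn _ hz hd => ex_deg hT h hn hz hd

/-- `Ex` for the families `Fw`. -/
theorem Ex_Fw [GradedAlgebra 𝒜] (hT : Gr 𝒜 δ w T)
    (h : ∀ x, T.d x = 0 → ∃ (ρ : R) (y : AA R O b), x = ρ • 1 + T.d y) (p : ℤ) :
    ∀ n : ℤ, 1 ≤ n → Pool.Agent.Helper67.QB.Ex T.d.toAddMonoidHom
      (fun n => (Fw 𝒜 δ w Set.univ n p).toAddSubgroup) n :=
  fun _ hn _ hz hd => ex_wt hT h hn hz hd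

end Pool.Agent.Helper64.QB
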