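import Mathlib
import Pool.Agent.Helper59.QB.TrEx
import Pool.Agent.Helper67.QB.KInst

/-!
PROJECT QB, leaf (G): the big ambient algebra. `c` new odd generators of degree 1 with values
`r j • 1` are added to a bihomogeneous differential.
-/

set_option autoImplicit false

open scoped TensorProduct
open Pool.Agent.Helper44.QA Pool.Agent.Helper44.QB Pool.Agent.Helper59.QB
open Pool.Agent.Helper67.QB (co_one suppIn_zero lin_zero one_mem_Ft Ft_smul)

namespace Pool.Agent.Helper64.QB

noncomputable section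

universe u

section Ext

variable {α : Type*} {a b c : ℕ}

/-- The new generators. -/
def nw (a b : ℕ) {c : ℕ} (j : Fin c) : Fin (a + c) ⊕ Fin b := Sum.inl (Fin.natAdd a j)

/-- Extension of a function on the generators to the new odd generators. -/
def xt (g : Fin a ⊕ Fin b → α) (f : Fin c → α) : Fin (a + c) ⊕ Fin b → α :=
  Sum.elim (Fin.addCases (fun i => g (Sum.inl i)) f) (fun j => g (Sum.inr j))

/-- The inclusion of the old odd generators. -/
abbrev io (a c : ℕ) : Fin a ↪ Fin (a + c) := Fin.castAddEmb c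

@[simp]
theorem xt_old (g : Fin a ⊕ Fin b → α) (f : Fin c → α) (x : Fin a ⊕ Fin b) :
    xt g f (eG (io a c) x) = g x := by
  rcases x with i | j
  · change Fin.addCases (fun i => g (Sum.inl i)) f (Fin.castAdd c i) = g (Sum.inl i)
    rw [Fin.addCases_left]
  · rfl

@[simp]
theorem xt_new (g : Fin a ⊕ Fin b → α) (f : Fin c → α) (j : Fin c) :
    xt g f (nw a b j) = f j := by
  change Fin.addCases (fun i => g (Sum.inl i)) f (Fin.natAdd a j) = f j
  rw [Fin.addCases_right]

theorem gen_cases (x : Fin (a + c) ⊕ Fin b) :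
    (∃ y : Fin a ⊕ Fin b, eG (io a c) y = x) ∨ ∃ j : Fin c, nw a b j = x := by
  rcases x with i | j
  · refine Fin.addCases (fun i => ?_) (fun i => ?_) i
    · exact Or.inl ⟨Sum.inl i, rfl⟩
    · exact Or.inr ⟨i, rfl⟩
  · exact Or.inl ⟨Sum.inr j, rfl⟩

theorem nw_injective : Function.Injective (nw a b (c := c)) := fun _ _ h =>
  (Fin.natAdd_injective c a) (Sum.inl_injective h)

theorem nw_notMem (j : Fin c) : nw a b j ∉ Set.range (eG (b := b) (io a c)) := by
  rintro ⟨y, hy⟩
  rcases y with i | i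
  · have h1 : Fin.castAdd c i = Fin.natAdd a j := Sum.inl_injective hy
    have h2 := congrArg Fin.val h1
    rw [Fin.val_castAdd, Fin.val_natAdd] at h2
    have := i.2
    omega
  · exact absurd hy (by rw [eG_inr]; exact Sum.inr_ne_inl)

theorem univ_eq : (Set.univ : Set (Fin (a + c) ⊕ Fin b)) =
    Set.range (eG (b := b) (io a c)) ∪ Set.range (nw a b (c := c)) := by
  refine (Set.eq_univ_of_forall fun x => ?_).symm
  rcases gen_cases (c := c) x with ⟨y, rfl⟩ | ⟨j, rfl⟩
  · exact Or.inl ⟨y, rfl⟩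
  · exact Or.inr ⟨j, rfl⟩

end Ext

section Big

variable {k R : Type u} [Field k] [CommRing R] [Algebra k R] {a b c : ℕ}
  {𝒜 : ℕ → Submodule k R} {δ w : Fin a ⊕ Fin b → ℤ} {T : DD R (Fin a) b}

/-- The degrees. -/
def bδ (c : ℕ) (δ : Fin a ⊕ Fin b → ℤ) : Fin (a + c) ⊕ Fin b → ℤ := xt δ (fun _ => 1)

/-- The weights. -/
def bw (w : Fin a ⊕ Fin b → ℤ) (e : Fin c → ℕ) : Fin (a + c) ⊕ Fin b → ℤ :=
  xt w (fun j => (e j : ℤ))

/-- The values of the differential. -/
def bT (T : DD R (Fin a) b) (r : Fin c → R) : DD R (Fin (a + c)) b :=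
  xt (fun g => em (io a c) (T g)) (fun j => r j • (1 : AA R (Fin (a + c)) b))

@[simp]
theorem bδ_old (g : Fin a ⊕ Fin b) : bδ c δ (eG (io a c) g) = δ g := xt_old _ _ _

@[simp]
theorem bδ_new (j : Fin c) : bδ c δ (nw a b j) = 1 := xt_new _ _ _

@[simp]
theorem bw_old (e : Fin c → ℕ) (g : Fin a ⊕ Fin b) : bw w e (eG (io a c) g) = w g := xt_old _ _ _

@[simp]
theorem bw_new (e : Fin c → ℕ) (j : Fin c) : bw w e (nw a b j) = e j := xt_new _ _ _

@[simp]
theorem bT_old (r : Fin c → R) (g : Fin a ⊕ Fin b) :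
    bT T r (eG (io a c) g) = em (io a c) (T g) := xt_old _ _ _

@[simp]
theorem bT_new (r : Fin c → R) (j : Fin c) : bT T r (nw a b j) = r j • 1 := xt_new _ _ _

/-- The constant coefficient of the value on a new generator. -/
theorem co_bT_new (r : Fin c → R) (j : Fin c) : co (∅, 0) (bT T r (nw a b j)) = r j := by
  rw [bT_new, map_smul, co_one, if_pos rfl, smul_eq_mul, mul_one]

theorem smul_one_mem_Fw {O : Type} [Fintype O] [LinearOrder O] {δ w : O ⊕ Fin b → ℤ}
    (S : Set (O ⊕ Fin b)) {e : ℕ} {r : R} (hr : r ∈ 𝒜 e) :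
    (r • (1 : AA R O b)) ∈ Fw 𝒜 δ w S 0 (e : ℤ) := by
  intro m
  rw [map_smul, co_one]
  by_cases h : (∅, 0) = m
  · subst h
    rw [if_pos rfl, smul_eq_mul, mul_one, mem_Cd, lin_zero, lin_zero, sub_zero, AZ_nat]
    exact ⟨fun _ => ⟨suppIn_zero S, rfl⟩, hr⟩
  · rw [if_neg h, smul_zero]
    exact Submodule.zero_mem _

/-- The big ambient algebra has a bihomogeneous differential. -/
theorem Gr_big (hT : Gr 𝒜 δ w T) (r : Fin c → R) (e : Fin c → ℕ) (he : ∀ j, 0 < e j)
    (hr : ∀ j, r j ∈ 𝒜 (e j)) : Gr 𝒜 (bδ c δ) (bw w e) (bT T r) where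
  odd i := by
    refine Fin.addCases (fun i => ?_) (fun j => ?_) i
    · exact (bδ_old (c := c) (δ := δ) (Sum.inl i)) ▸ hT.odd i
    · exact (bδ_new (δ := δ) j) ▸ odd_one
  even j := (bδ_old (c := c) (δ := δ) (Sum.inr j)) ▸ hT.even j
  pos g := by
    rcases gen_cases (c := c) g with ⟨y, rfl⟩ | ⟨j, rfl⟩
    · rw [bδ_old]
      exact hT.pos y
    · rw [bδ_new]
  wpos g := by
    rcases gen_cases (c := c) g with ⟨y, rfl⟩ | ⟨j, rfl⟩
    · rw [bw_old]
      exact hT.wpos y
    · rw [bw_new]
      exact_mod_cast he j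
  val g := by
    rcases gen_cases (c := c) g with ⟨y, rfl⟩ | ⟨j, rfl⟩
    · rw [bT_old, em_mem_Fw' (fun g => bδ_old g) (fun g => bw_old e g), Set.preimage_univ, bδ_old,
        bw_old]
      exact hT.val y
    · rw [bT_new, bδ_new, bw_new, sub_self]
      exact smul_one_mem_Fw _ (hr j)
  sq g := by
    rcases gen_cases (c := c) g with ⟨y, rfl⟩ | ⟨j, rfl⟩
    · rw [bT_old, d_em (io a c) T (bT T r) (fun g => bT_old r g), hT.sq, map_zero]
    · rw [bT_new, map_smul, d_one, smul_zero]

/-- Closed sets of generators of the big algebra. -/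
theorem Cl_big {S : Set (Fin a ⊕ Fin b)} (hS : Cl k δ T S) (r : Fin c → R) (N : Set (Fin c)) :
    Cl k (bδ c δ) (bT T r) (eG (io a c) '' S ∪ nw a b '' N) := by
  rintro g (⟨y, hy, rfl⟩ | ⟨j, -, rfl⟩)
  · rw [bT_old, bδ_old]
    exact Pc_mono Set.subset_union_left (fun _ _ _ => le_rfl)
      ((em_mem_Ft (fun g => bδ_old g) S _ _).2 (hS y hy))
  · rw [bT_new, bδ_new, sub_self]
    exact Ft_smul _ (one_mem_Ft _)

/-- The old generators form a closed set. -/
theorem Cl_old (hS : Cl k δ T Set.univ) (r : Fin c → R) :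
    Cl k (bδ c δ) (bT T r) (Set.range (eG (b := b) (io a c))) := by
  have h := Cl_big hS r ∅
  rwa [Set.image_univ, Set.image_empty, Set.union_empty] at h

/-- The old generators and some new ones form a closed set. -/
theorem Cl_mid (hS : Cl k δ T Set.univ) (r : Fin c → R) (N : Set (Fin c)) :
    Cl k (bδ c δ) (bT T r) (Set.range (eG (b := b) (io a c)) ∪ nw a b '' N) := by
  have h := Cl_big hS r N
  rwa [Set.image_univ] at h

end Big

/-! Two groups of new generators: `s` generators `τ` and `D` generators `σ`. -/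

section Two

variable {a b s D : ℕ}

/-- The first group. -/
def ta (a b D : ℕ) {s : ℕ} (j : Fin s) : Fin (a + (s + D)) ⊕ Fin b := nw a b (Fin.castAdd D j)

/-- The second group. -/
def sg (a b s : ℕ) {D : ℕ} (j : Fin D) : Fin (a + (s + D)) ⊕ Fin b := nw a b (Fin.natAdd s j)

theorem ta_injective : Function.Injective (ta a b D (s := s)) :=
  nw_injective.comp (Fin.castAdd_injective s D)

theorem sg_injective : Function.Injective (sg a b s (D := D)) :=
  nw_injective.comp (Fin.natAdd_injective D s)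

theorem ta_ne_sg (i : Fin s) (j : Fin D) : ta a b D i ≠ sg a b s j := by
  intro h
  have h1 : Fin.castAdd D i = Fin.natAdd s j := nw_injective h
  have h2 := congrArg Fin.val h1
  rw [Fin.val_castAdd, Fin.val_natAdd] at h2
  have := i.2
  omega

theorem ta_notMem (i : Fin s) : ta a b D i ∉ Set.range (eG (b := b) (io a (s + D))) := nw_notMem _

theorem sg_notMem (i : Fin D) : sg a b s i ∉ Set.range (eG (b := b) (io a (s + D))) := nw_notMem _

theorem nw_range : Set.range (nw a b (c := s + D)) =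
    Set.range (ta a b D (s := s)) ∪ Set.range (sg a b s (D := D)) := by
  ext x
  constructor
  · rintro ⟨j, rfl⟩
    refine Fin.addCases (fun i => ?_) (fun i => ?_) j
    · exact Or.inl ⟨i, rfl⟩
    · exact Or.inr ⟨i, rfl⟩
  · rintro (⟨i, rfl⟩ | ⟨i, rfl⟩)
    · exact ⟨_, rfl⟩
    · exact ⟨_, rfl⟩

theorem univ_eq_two : (Set.univ : Set (Fin (a + (s + D)) ⊕ Fin b)) =
    Set.range (eG (b := b) (io a (s + D))) ∪ Set.range (ta a b D (s := s)) ∪
      Set.range (sg a b s (D := D)) := by
  rw [univ_eq, nw_range, Set.union_assoc]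

theorem gen_cases_two (x : Fin (a + (s + D)) ⊕ Fin b) :
    (∃ y : Fin a ⊕ Fin b, eG (io a (s + D)) y = x) ∨ (∃ j : Fin s, ta a b D j = x) ∨
      ∃ j : Fin D, sg a b s j = x := by
  have h : x ∈ (Set.univ : Set (Fin (a + (s + D)) ⊕ Fin b)) := Set.mem_univ x
  rw [univ_eq_two] at h
  rcases h with (h | h) | h
  · exact Or.inl h
  · exact Or.inr (Or.inl h)
  · exact Or.inr (Or.inr h)

theorem sg_notMem_mid (i : Fin D) : sg a b s i ∉
    Set.range (eG (b := b) (io a (s + D))) ∪ Set.range (ta a b D (s := s)) := by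
  rintro (h | ⟨j, hj⟩)
  · exact sg_notMem i h
  · exact ta_ne_sg j i hj

variable {k R : Type u} [Field k] [CommRing R] [Algebra k R]
  {𝒜 : ℕ → Submodule k R} {δ w : Fin a ⊕ Fin b → ℤ} {T : DD R (Fin a) b}
  (r : Fin s → R) (er : Fin s → ℕ) (θ : Fin D → R) (eθ : Fin D → ℕ)

@[simp]
theorem bδ_ta (j : Fin s) : bδ (s + D) δ (ta a b D j) = 1 := bδ_new _

@[simp]
theorem bδ_sg (j : Fin D) : bδ (s + D) δ (sg a b s j) = 1 := bδ_new _

@[simp]
theorem bw_ta (j : Fin s) : bw w (Fin.addCases er eθ) (ta a b D j) = er j := by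
  unfold ta
  rw [bw_new, Fin.addCases_left]

@[simp]
theorem bw_sg (j : Fin D) : bw w (Fin.addCases er eθ) (sg a b s j) = eθ j := by
  unfold sg
  rw [bw_new, Fin.addCases_right]

theorem bT_ta (j : Fin s) : bT T (Fin.addCases r θ) (ta a b D j) = r j • 1 := by
  unfold ta
  rw [bT_new, Fin.addCases_left]

theorem bT_sg (j : Fin D) : bT T (Fin.addCases r θ) (sg a b s j) = θ j • 1 := by
  unfold sg
  rw [bT_new, Fin.addCases_right]

theorem co_bT_ta (j : Fin s) : co (∅, 0) (bT T (Fin.addCases r θ) (ta a b D j)) = r j := by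
  unfold ta
  rw [co_bT_new, Fin.addCases_left]

theorem co_bT_sg (j : Fin D) : co (∅, 0) (bT T (Fin.addCases r θ) (sg a b s j)) = θ j := by
  unfold sg
  rw [co_bT_new, Fin.addCases_right]

/-- The big ambient algebra, two groups of new generators. -/
theorem Gr_two (hT : Gr 𝒜 δ w T) (her : ∀ j, 0 < er j) (hr : ∀ j, r j ∈ 𝒜 (er j))
    (heθ : ∀ j, 0 < eθ j) (hθ : ∀ j, θ j ∈ 𝒜 (eθ j)) :
    Gr 𝒜 (bδ (s + D) δ) (bw w (Fin.addCases er eθ)) (bT T (Fin.addCases r θ)) := by
  refine Gr_big hT _ _ ?_ ?_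
  · intro j
    refine Fin.addCases (fun i => ?_) (fun i => ?_) j
    · rw [Fin.addCases_left]
      exact her i
    · rw [Fin.addCases_right]
      exact heθ i
  · intro j
    refine Fin.addCases (fun i => ?_) (fun i => ?_) j
    · rw [Fin.addCases_left, Fin.addCases_left]
      exact hr i
    · rw [Fin.addCases_right, Fin.addCases_right]
      exact hθ i

/-- The old generators and the first group form a closed set. -/
theorem Cl_two (hS : Cl k δ T Set.univ) (r' : Fin (s + D) → R) :
    Cl k (bδ (s + D) δ) (bT T r')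
      (Set.range (eG (b := b) (io a (s + D))) ∪ Set.range (ta a b D (s := s))) := by
  have h := Cl_mid hS r' (Set.range (Fin.castAdd D))
  rwa [← Set.range_comp] at h

/-- Everything. -/
theorem Cl_all (hT : Gr 𝒜 δ w T) {c : ℕ} (r : Fin c → R) (e : Fin c → ℕ) (he : ∀ j, 0 < e j)
    (hr : ∀ j, r j ∈ 𝒜 (e j)) : Cl k (bδ c δ) (bT T r) Set.univ := fun g _ =>
  Pc_mono subset_rfl (fun _ _ _ => le_top) ((Gr_big hT r e he hr).val g)

end Two

section Card

variable {k R : Type u} [Field k] [CommRing R] [Algebra k R]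

/-- The number of odd generators. -/
theorem card_odd {O : Type} [Fintype O] [LinearOrder O] {b : ℕ} {𝒜 : ℕ → Submodule k R}
    {δ w : O ⊕ Fin b → ℤ} {T : DD R O b} (hT : Gr 𝒜 δ w T) :
    (Finset.univ.filter fun g => Odd (δ g)).card = Fintype.card O ∧
      (Finset.univ.filter fun g => Even (δ g)).card = b := by
  constructor
  · have h : (Finset.univ.filter fun g => Odd (δ g)) =
        (Finset.univ : Finset O).map Function.Embedding.inl := by
      ext x
      rw [Finset.mem_filter, Finset.mem_map]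
      rcases x with i | j
      · exact ⟨fun _ => ⟨i, Finset.mem_univ _, rfl⟩, fun _ => ⟨Finset.mem_univ _, hT.odd i⟩⟩
      · constructor
        · rintro ⟨-, h⟩
          exact absurd (hT.even j) (Int.not_even_iff_odd.2 h)
        · rintro ⟨i, -, hi⟩
          exact absurd hi Sum.inl_ne_inr
    rw [h, Finset.card_map, Finset.card_univ]
  · have h : (Finset.univ.filter fun g => Even (δ g)) =
        (Finset.univ : Finset (Fin b)).map Function.Embedding.inr := by
      ext x
      rw [Finset.mem_filter, Finset.mem_map]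
      rcases x with i | j
      · constructor
        · rintro ⟨-, h⟩
          exact absurd h (Int.not_even_iff_odd.2 (hT.odd i))
        · rintro ⟨i, -, hi⟩
          exact absurd hi Sum.inr_ne_inl
      · exact ⟨fun _ => ⟨j, Finset.mem_univ _, rfl⟩, fun _ => ⟨Finset.mem_univ _, hT.even j⟩⟩
    rw [h, Finset.card_map, Finset.card_univ, Fintype.card_fin]

variable {a b s D : ℕ} {𝒜 : ℕ → Submodule k R} {δ w : Fin a ⊕ Fin b → ℤ} {T : DD R (Fin a) b}

/-- The finite set of the old generators and the first group. -/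
def mid (a b s D : ℕ) : Finset (Fin (a + (s + D)) ⊕ Fin b) :=
  (Finset.univ : Finset (Fin a ⊕ Fin b)).image (eG (io a (s + D))) ∪
    (Finset.univ : Finset (Fin s)).image (ta a b D)

theorem coe_mid : (mid a b s D : Set (Fin (a + (s + D)) ⊕ Fin b)) =
    Set.range (eG (b := b) (io a (s + D))) ∪ Set.range (ta a b D (s := s)) := by
  unfold mid
  rw [Finset.coe_union, Finset.coe_image, Finset.coe_image, Finset.coe_univ, Finset.coe_univ,
    Set.image_univ, Set.image_univ]

theorem univ_mid : (Finset.univ : Finset (Fin (a + (s + D)) ⊕ Fin b)) =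
    mid a b s D ∪ (Finset.univ : Finset (Fin D)).image (sg a b s) := by
  apply Finset.coe_injective
  rw [Finset.coe_univ, Finset.coe_union, coe_mid, Finset.coe_image, Finset.coe_univ,
    Set.image_univ, univ_eq_two]

theorem sg_notMem_midF (i : Fin D) : sg a b s i ∉ mid a b s D := by
  rw [← Finset.mem_coe, coe_mid]
  exact sg_notMem_mid i

theorem disj_mid : Disjoint (mid a b s D) ((Finset.univ : Finset (Fin D)).image (sg a b s)) := by
  rw [Finset.disjoint_right]
  intro x hx
  obtain ⟨i, -, rfl⟩ := Finset.mem_image.1 hx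
  exact sg_notMem_midF i

/-- The numbers of odd and even generators among the old ones and the first group. -/
theorem card_mid (hT : Gr 𝒜 δ w T) (r : Fin s → R) (er : Fin s → ℕ) (θ : Fin D → R)
    (eθ : Fin D → ℕ) (her : ∀ j, 0 < er j) (hr : ∀ j, r j ∈ 𝒜 (er j))
    (heθ : ∀ j, 0 < eθ j) (hθ : ∀ j, θ j ∈ 𝒜 (eθ j)) :
    ((mid a b s D).filter fun g => Odd (bδ (s + D) δ g)).card = a + s ∧
      ((mid a b s D).filter fun g => Even (bδ (s + D) δ g)).card = b := by
  obtain ⟨h1, h2⟩ := card_odd (Gr_two r er θ eθ hT her hr heθ hθ)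
  have h3 : ((Finset.univ : Finset (Fin D)).image (sg a b s)).filter
      (fun g => Odd (bδ (s + D) δ g)) = (Finset.univ : Finset (Fin D)).image (sg a b s) := by
    rw [Finset.filter_eq_self]
    intro x hx
    obtain ⟨i, -, rfl⟩ := Finset.mem_image.1 hx
    rw [bδ_sg]
    exact odd_one
  have h4 : ((Finset.univ : Finset (Fin D)).image (sg a b s)).filter
      (fun g => Even (bδ (s + D) δ g)) = ∅ := by
    rw [Finset.filter_eq_empty_iff]
    intro x hx
    obtain ⟨i, -, rfl⟩ := Finset.mem_image.1 hx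
    rw [bδ_sg]
    exact Int.not_even_one
  rw [univ_mid, Finset.filter_union, Finset.card_union_of_disjoint
    (Finset.disjoint_filter_filter disj_mid)] at h1 h2
  rw [h3, Finset.card_image_of_injective _ sg_injective, Finset.card_univ, Fintype.card_fin,
    Fintype.card_fin] at h1
  rw [h4, Finset.card_empty] at h2
  omega

end Card

end

end Pool.Agent.Helper64.QB
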